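import Pool.Agent.H929.BW.Stm

/-!
# BW project (helper929), tasks CLS and CLS3 (helper726)
-/

set_option autoImplicit false

namespace Pool.Agent.H929.BW

open Finset Pool.Agent.TH3.IR Pool.Agent.Y55.Col

namespace CLSaux

/-- pairing -/
theorem prod_le (n m : ℕ) :
    2 ^ (n + 1) * ∏ j ∈ range (n + 1), (m + j) ≤ (2 * m + n) ^ (n + 1) := by
  have h1 : (∏ j ∈ range (n + 1), (2 * (m + j))) = 2 ^ (n + 1) * ∏ j ∈ range (n + 1), (m + j) := by
    rw [prod_mul_distrib, prod_const, card_range]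
  have h2 : (∏ j ∈ range (n + 1), (2 * (m + j))) = ∏ j ∈ range (n + 1), (2 * (m + (n - j))) := by
    rw [← prod_range_reflect (fun j => 2 * (m + j)) (n + 1)]
    refine prod_congr rfl fun j hj => ?_
    rw [Nat.add_sub_cancel]
  rw [← h1]
  have h3 : (∏ j ∈ range (n + 1), (2 * (m + j))) ^ 2 ≤ ((2 * m + n) ^ (n + 1)) ^ 2 := by
    calc (∏ j ∈ range (n + 1), (2 * (m + j))) ^ 2 =
        ∏ j ∈ range (n + 1), ((2 * (m + j)) * (2 * (m + (n - j)))) := by
          rw [prod_mul_distrib (f := fun j => 2 * (m + j)) (g := fun j => 2 * (m + (n - j))),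
            ← h2, sq]
      _ ≤ ∏ _j ∈ range (n + 1), (2 * m + n) ^ 2 := by
          refine prod_le_prod' fun j hj => ?_
          obtain ⟨l, rfl⟩ := Nat.exists_eq_add_of_le (Nat.le_of_lt_succ (mem_range.1 hj))
          rw [Nat.add_sub_cancel_left]
          zify
          nlinarith [sq_nonneg ((j : ℤ) - l)]
      _ = ((2 * m + n) ^ (n + 1)) ^ 2 := by
          rw [prod_const, card_range, ← pow_mul, ← pow_mul, Nat.mul_comm 2 (n + 1)]
  exact (Nat.pow_le_pow_iff_left (by norm_num)).1 h3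

/-- the count -/
theorem count (n t m d : ℕ) (hm : 1 ≤ m) (hd : t * (2 * m + n) ≤ 2 * d) :
    t ^ (n + 1) * (m + n).choose (n + 1) ≤ (d + (n + 1)).choose (n + 1) := by
  obtain ⟨m', rfl⟩ : ∃ m', m = m' + 1 := ⟨m - 1, by omega⟩
  have e1 := Nat.ascFactorial_eq_factorial_mul_choose m' (n + 1)
  have e2 := Nat.ascFactorial_eq_factorial_mul_choose d (n + 1)
  rw [Nat.ascFactorial_eq_prod_range] at e1 e2
  have hf : 0 < (n + 1).factorial := Nat.factorial_pos _
  have h1 := prod_le n (m' + 1)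
  have h2 : (2 * d) ^ (n + 1) ≤ 2 ^ (n + 1) * ∏ j ∈ range (n + 1), (d + 1 + j) := by
    have h3 : d ^ (n + 1) ≤ ∏ j ∈ range (n + 1), (d + 1 + j) := by
      calc d ^ (n + 1) = ∏ _j ∈ range (n + 1), d := by rw [prod_const, card_range]
        _ ≤ _ := prod_le_prod' fun j _ => by omega
    rw [mul_pow]
    exact Nat.mul_le_mul_left _ h3
  have h4 : t ^ (n + 1) * (2 * (m' + 1) + n) ^ (n + 1) ≤ (2 * d) ^ (n + 1) := by
    rw [← mul_pow]
    exact Nat.pow_le_pow_left hd _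
  have h5 : 2 ^ (n + 1) * (n + 1).factorial *
      (t ^ (n + 1) * (m' + 1 + n).choose (n + 1)) ≤
      2 ^ (n + 1) * (n + 1).factorial * ((d + (n + 1)).choose (n + 1)) := by
    calc 2 ^ (n + 1) * (n + 1).factorial * (t ^ (n + 1) * (m' + 1 + n).choose (n + 1)) =
        t ^ (n + 1) * (2 ^ (n + 1) * ((n + 1).factorial * (m' + (n + 1)).choose (n + 1))) := by
          rw [show m' + 1 + n = m' + (n + 1) by ring]
          ring
      _ = t ^ (n + 1) * (2 ^ (n + 1) * ∏ j ∈ range (n + 1), (m' + 1 + j)) := by rw [← e1]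
      _ ≤ t ^ (n + 1) * (2 * (m' + 1) + n) ^ (n + 1) := Nat.mul_le_mul_left _ h1
      _ ≤ (2 * d) ^ (n + 1) := h4
      _ ≤ 2 ^ (n + 1) * ∏ j ∈ range (n + 1), (d + 1 + j) := h2
      _ = 2 ^ (n + 1) * (n + 1).factorial * ((d + (n + 1)).choose (n + 1)) := by
          rw [e2]; ring
  exact Nat.le_of_mul_le_mul_left h5 (by positivity)

theorem six (d : ℕ) : 6 * (d + 3).choose 3 = (d + 1) * (d + 2) * (d + 3) := by
  have e := Nat.ascFactorial_eq_factorial_mul_choose d 3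
  rw [Nat.ascFactorial_eq_prod_range] at e
  simp only [prod_range_succ, prod_range_zero, Nat.factorial] at e
  linarith

end CLSaux

open CLSaux in
/-- **CLS** -/
theorem t_CLS : S_CLS := by
  intro n hn m hm T t ht _
  obtain ⟨d, hd1, hd2⟩ : ∃ d, t * (2 * m + n) ≤ 2 * d ∧ 2 * d ≤ t * (2 * m + n) + 1 :=
    ⟨(t * (2 * m + n) + 1) / 2, by omega, by omega⟩
  refine ⟨d + 1, ?_, ?_⟩
  · refine Pool.Agent.K7.H43.PT.ind_powersT n t m d ht (Or.inl (Or.inl ?_)) (count n t m d hm hd1)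
    refine Or.inr (Or.inr (Or.inl ?_))
    rw [Nat.add_sub_cancel]
    have : t * (2 * m + n) = 2 * t * m + n * t := by ring
    omega
  · have h1 : (2 * (d : ℝ)) ≤ t * (2 * m + n) + 1 := by exact_mod_cast hd2
    have h2 : (1 : ℝ) ≤ n := by exact_mod_cast hn
    push_cast
    linarith

open CLSaux in
/-- **CLS3** -/
theorem t_CLS3 : S_CLS3 := by
  intro m hm T t ht _
  have hm' : (1 : ℝ) ≤ m := by exact_mod_cast hm
  have ht' : (1 : ℝ) ≤ t := by exact_mod_cast ht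
  have hg0 : 0 ≤ g3 m := by unfold g3; positivity
  have hg3 : g3 m ^ 3 = (m : ℝ) * (m + 1) * (m + 2) := by
    unfold g3
    rw [← Real.rpow_natCast, ← Real.rpow_mul (by positivity)]
    norm_num
  have hmg : (m : ℝ) ≤ g3 m := by
    have h1 : (m : ℝ) ^ 3 ≤ g3 m ^ 3 := by
      rw [hg3]
      nlinarith
    exact le_of_pow_le_pow_left₀ (by norm_num) hg0 h1
  set d : ℕ := ⌈(t : ℝ) * g3 m + 8⌉₊ with hd
  have hd1 : (t : ℝ) * g3 m + 8 ≤ d := Nat.le_ceil _
  have hd2 : (d : ℝ) < t * g3 m + 8 + 1 := Nat.ceil_lt_add_one (by positivity)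
  have key : 2 * (t ^ 3 * (m + 2).choose 3) + 3 * m * (m - 1) ≤ 2 * (d + 3).choose 3 := by
    obtain ⟨k, rfl⟩ : ∃ k, m = k + 1 := ⟨m - 1, by omega⟩
    have e1 := six k
    have e2 := six d
    rw [show k + 1 + 2 = k + 3 by ring, Nat.add_sub_cancel]
    have h3 : t ^ 3 * ((k + 1) * (k + 2) * (k + 3)) + 9 * (k + 1) * k ≤
        (d + 1) * (d + 2) * (d + 3) := by
      have h4 : (t : ℝ) ^ 3 * (((k : ℝ) + 1) * (k + 2) * (k + 3)) + 9 * ((k : ℝ) + 1) * k ≤
          ((d : ℝ) + 1) * (d + 2) * (d + 3) := by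
        have h5 : ((k : ℝ) + 1) * (k + 2) * (k + 3) = g3 (k + 1) ^ 3 := by
          rw [hg3]; push_cast; ring
        rw [h5]
        push_cast at hmg hm'
        set g := g3 (k + 1) with hgdef
        have hk0 : (0 : ℝ) ≤ k := Nat.cast_nonneg k
        have htg : (k : ℝ) + 1 ≤ t * g := by nlinarith
        have hu : (0 : ℝ) ≤ t * g := by positivity
        have h6 : ((t : ℝ) * g + 9) ^ 3 ≤ ((d : ℝ) + 1) * (d + 2) * (d + 3) := by
          calc ((t : ℝ) * g + 9) ^ 3 ≤ ((d : ℝ) + 1) ^ 3 := by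
                apply pow_le_pow_left₀ (by positivity)
                linarith
            _ ≤ ((d : ℝ) + 1) * (d + 2) * (d + 3) := by
                have hd0 : (0 : ℝ) ≤ d := Nat.cast_nonneg d
                nlinarith
        have h7 : (t : ℝ) ^ 3 * g ^ 3 + 27 * (t * g) ^ 2 ≤ ((t : ℝ) * g + 9) ^ 3 := by
          nlinarith
        have h8 : ((k : ℝ) + 1) ^ 2 ≤ (t * g) ^ 2 := pow_le_pow_left₀ (by positivity) htg 2
        nlinarith
      exact_mod_cast h4
    have h9 : 3 * (2 * (t ^ 3 * (k + 3).choose 3) + 3 * (k + 1) * k) ≤ 3 * (2 * (d + 3).choose 3) := by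
      calc 3 * (2 * (t ^ 3 * (k + 3).choose 3) + 3 * (k + 1) * k) =
          t ^ 3 * (6 * (k + 3).choose 3) + 9 * (k + 1) * k := by ring
        _ = t ^ 3 * ((k + 1) * (k + 2) * (k + 3)) + 9 * (k + 1) * k := by rw [e1]
        _ ≤ (d + 1) * (d + 2) * (d + 3) := h3
        _ = 3 * (2 * (d + 3).choose 3) := by rw [← e2]; ring
    omega
  refine ⟨d + 1, ?_, ?_⟩
  · refine Pool.Agent.K7.H43.PT.ind_powersT 2 t m d ht (Or.inr (Or.inl ⟨rfl, ?_⟩)) ?_
    · exact Or.inr (Or.inr (Or.inr key))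
    · have h1 : 2 * (t ^ 3 * (m + 2).choose 3) ≤ 2 * (d + 3).choose 3 :=
        le_trans (Nat.le_add_right _ _) key
      exact Nat.le_of_mul_le_mul_left h1 (by norm_num)
  · push_cast
    linarith

end Pool.Agent.H929.BW
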